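import Pool.Agent.V8H32.CV.Defs

/-! # The primes over a rational prime and the homomorphisms to finite fields -/

set_option autoImplicit false

namespace Pool.Agent.V8H35.CV
open NumberField IsDedekindDomain
open Pool.Agent.V8H32.CF (nv)
open Pool.Agent.V8H32.CV (dn fd)

variable {K : Type} [Field K] [NumberField K]

/-- the prime ideals of the integers of `ℚ` which contain the prime number `ℓ` -/
lemma eq_span (P : Ideal (𝓞 ℚ)) (hP : P ≠ ⊤) (l : ℕ) (hl : l.Prime) (h : (l : 𝓞 ℚ) ∈ P) :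
    P = Ideal.span {(l : 𝓞 ℚ)} := by
  have hmax : (Ideal.span {(l : 𝓞 ℚ)}).IsMaximal := by
    have h1 : (Ideal.span {(l : ℤ)}).IsMaximal := by
      have : Fact l.Prime := ⟨hl⟩
      exact PrincipalIdealRing.isMaximal_of_irreducible
        (Nat.prime_iff_prime_int.mp hl).irreducible
    have h2 : Ideal.span {(l : 𝓞 ℚ)} = Ideal.comap Rat.ringOfIntegersEquiv
        (Ideal.span {(l : ℤ)}) := by
      rw [← Ideal.map_symm, Ideal.map_span]
      simp
    rw [h2]
    exact Ideal.comap_isMaximal_of_equiv Rat.ringOfIntegersEquiv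
  exact (hmax.eq_of_le hP (by rwa [Ideal.span_singleton_le_iff_mem])).symm

lemma absNorm_span_q (l : ℕ) : Ideal.absNorm (Ideal.span {(l : 𝓞 ℚ)}) = l := by
  have h := Ideal.absNorm_span_natCast (S := 𝓞 ℚ) l
  have h1 : Module.finrank ℤ (𝓞 ℚ) = 1 := by
    rw [RingOfIntegers.rank]; simp
  rw [h, h1, pow_one]

/-- the rational prime of `p` -/
lemma exists_prime (p : HeightOneSpectrum (𝓞 ℚ)) : ∃ l : ℕ, l.Prime ∧ nv p = l ∧
    p.asIdeal = Ideal.span {(l : 𝓞 ℚ)} := by
  have h1 : (Ideal.absNorm p.asIdeal : 𝓞 ℚ) ∈ p.asIdeal := Ideal.absNorm_mem _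
  have h0 : Ideal.absNorm p.asIdeal ≠ 0 := by
    rw [Ne, Ideal.absNorm_eq_zero_iff]
    exact p.ne_bot
  have key : ∀ n : ℕ, n ≠ 0 → (n : 𝓞 ℚ) ∈ p.asIdeal → ∃ l : ℕ, l.Prime ∧ (l : 𝓞 ℚ) ∈ p.asIdeal := by
    intro n
    induction n using Nat.strong_induction_on with
    | _ n ih =>
      intro hn hmem
      by_cases h1' : n = 1
      · exfalso
        subst h1'
        rw [Nat.cast_one] at hmem
        exact p.isPrime.ne_top ((Ideal.eq_top_iff_one _).2 hmem)
      · have hf := Nat.minFac_prime h1'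
        have hd := Nat.minFac_dvd n
        obtain ⟨m, hm⟩ := hd
        have hmem' : ((n.minFac : ℕ) : 𝓞 ℚ) * ((m : ℕ) : 𝓞 ℚ) ∈ p.asIdeal := by
          rw [← Nat.cast_mul, ← hm]; exact hmem
        rcases p.isPrime.mem_or_mem hmem' with h | h
        · exact ⟨_, hf, h⟩
        · have hm0 : m ≠ 0 := by rintro rfl; simp at hm; exact hn hm
          refine ih m ?_ hm0 h
          have := hf.two_le
          calc m < 2 * m := by omega
            _ ≤ n.minFac * m := Nat.mul_le_mul_right _ this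
            _ = n := hm.symm
  obtain ⟨l, hl, hmem⟩ := key _ h0 h1
  have h2 := eq_span p.asIdeal p.isPrime.ne_top l hl hmem
  refine ⟨l, hl, ?_, h2⟩
  rw [nv, h2, absNorm_span_q]

lemma nv_gt_one {K : Type} [Field K] [NumberField K] (v : HeightOneSpectrum (𝓞 K)) : 1 < nv v := by
  have h0 : Ideal.absNorm v.asIdeal ≠ 0 := by
    rw [Ne, Ideal.absNorm_eq_zero_iff]
    exact v.ne_bot
  have h1 : Ideal.absNorm v.asIdeal ≠ 1 := by
    rw [Ne, Ideal.absNorm_eq_one_iff]
    exact v.isPrime.ne_top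
  rw [nv]; omega

lemma nzs : NoZeroSMulDivisors (𝓞 ℚ) (𝓞 K) := by
  refine ⟨fun {r x} h => ?_⟩
  rw [Algebra.smul_def, mul_eq_zero] at h
  rcases h with h | h
  · left
    exact (map_eq_zero_iff _ (FaithfulSMul.algebraMap_injective (𝓞 ℚ) (𝓞 K))).1 h
  · right; exact h

instance lies (v : HeightOneSpectrum (𝓞 K)) : v.asIdeal.LiesOver (dn v).asIdeal := ⟨rfl⟩

lemma fd_eq (v : HeightOneSpectrum (𝓞 K)) : fd v = (dn v).asIdeal.inertiaDeg' v.asIdeal ∧
    nv v = nv (dn v) ^ ((dn v).asIdeal.inertiaDeg' v.asIdeal) := by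
  have h : nv v = nv (dn v) ^ ((dn v).asIdeal.inertiaDeg' v.asIdeal) := by
    rw [nv, nv]
    exact Ideal.absNorm_eq_pow_inertiaDeg'_of_liesOver v.asIdeal (dn v).asIdeal (dn v).isPrime
      (dn v).ne_bot
  refine ⟨?_, h⟩
  rw [fd, h, Nat.log_pow (nv_gt_one _)]

/-- `q_v = q_p^f` -/
lemma nv_eq_pow (v : HeightOneSpectrum (𝓞 K)) : nv v = nv (dn v) ^ fd v := by
  rw [(fd_eq v).1]; exact (fd_eq v).2

lemma fd_pos (v : HeightOneSpectrum (𝓞 K)) : 0 < fd v := by
  rcases Nat.eq_zero_or_pos (fd v) with h | h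
  · exfalso
    have h1 := nv_eq_pow v
    rw [h, pow_zero] at h1
    have := nv_gt_one v
    omega
  · exact h

lemma dn_primesOver (p : HeightOneSpectrum (𝓞 ℚ)) (v : HeightOneSpectrum (𝓞 K)) (h : dn v = p) :
    v.asIdeal ∈ p.asIdeal.primesOver (𝓞 K) := ⟨v.isPrime, by subst h; exact lies v⟩

/-- finitely many primes over `p` -/
instance fiber_finite (p : HeightOneSpectrum (𝓞 ℚ)) :
    Finite {v : HeightOneSpectrum (𝓞 K) // dn v = p} := by
  have hfin : (p.asIdeal.primesOver (𝓞 K)).Finite := by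
    have : p.asIdeal.IsMaximal := p.isMaximal
    exact IsDedekindDomain.primesOver_finite p.asIdeal (𝓞 K)
  have := hfin.to_subtype
  refine Finite.of_injective (β := p.asIdeal.primesOver (𝓞 K))
    (fun v => ⟨v.1.asIdeal, dn_primesOver p v.1 v.2⟩) ?_
  intro v w h
  simp only [Subtype.mk.injEq] at h
  exact Subtype.ext (HeightOneSpectrum.ext_iff.mpr h)

/-- at most `[K : ℚ]` primes over `p` -/
lemma card_fiber_le (p : HeightOneSpectrum (𝓞 ℚ)) :
    Nat.card {v : HeightOneSpectrum (𝓞 K) // dn v = p} ≤ Module.finrank ℚ K := by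
  have : p.asIdeal.IsMaximal := p.isMaximal
  have := nzs (K := K)
  have h := Ideal.card_primesOverFinset_le_finrank (𝓞 K) ℚ K (p := p.asIdeal) p.ne_bot
  refine le_trans ?_ h
  rw [← Nat.card_eq_finsetCard]
  refine Nat.card_le_card_of_injective
    (fun v => ⟨v.1.asIdeal, (IsDedekindDomain.mem_primesOverFinset_iff p.ne_bot _).2
      (dn_primesOver p v.1 v.2)⟩) ?_
  intro v w h
  simp only [Subtype.mk.injEq] at h
  exact Subtype.ext (HeightOneSpectrum.ext_iff.mpr h)

/-- the residue degree is at most `[K : ℚ]` -/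
lemma fd_le (v : HeightOneSpectrum (𝓞 K)) : fd v ≤ Module.finrank ℚ K := by
  rw [(fd_eq v).1]
  have : (dn v).asIdeal.IsMaximal := (dn v).isMaximal
  have : v.asIdeal.IsPrime := v.isPrime
  have := nzs (K := K)
  exact Ideal.inertiaDeg_le_finrank (𝓞 K) ℚ K v.asIdeal (dn v).ne_bot

/-- The prime of `𝓞 K` given by a homomorphism to a finite field -/
noncomputable def kerP {κ : Type} [Field κ] [Finite κ] (φ : 𝓞 K →+* κ) :
    HeightOneSpectrum (𝓞 K) where
  asIdeal := RingHom.ker φ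
  isPrime := RingHom.ker_isPrime φ
  ne_bot := by
    intro h
    have hinj : Function.Injective φ := (RingHom.injective_iff_ker_eq_bot φ).2 h
    have : Infinite (𝓞 K) := inferInstance
    exact not_injective_infinite_finite φ hinj

lemma charP_k {κ : Type} [Field κ] [Finite κ] {l e : ℕ} (hl : l.Prime) (h : Nat.card κ = l ^ e) :
    CharP κ l := by
  have := Fintype.ofFinite κ
  have : Fact l.Prime := ⟨hl⟩
  rw [Nat.card_eq_fintype_card] at h
  exact charP_of_card_eq_prime_pow h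

lemma dn_kerP (p : HeightOneSpectrum (𝓞 ℚ)) {κ : Type} [Field κ] [Finite κ] {e : ℕ}
    (hκ : Nat.card κ = nv p ^ e) (φ : 𝓞 K →+* κ) : dn (kerP φ) = p := by
  obtain ⟨l, hl, hnv, hsp⟩ := exists_prime p
  rw [hnv] at hκ
  have := charP_k hl hκ
  apply HeightOneSpectrum.ext_iff.mpr
  rw [hsp]
  refine eq_span _ (dn (kerP φ)).isPrime.ne_top l hl ?_
  change algebraMap (𝓞 ℚ) (𝓞 K) (l : 𝓞 ℚ) ∈ RingHom.ker φ
  rw [RingHom.mem_ker, map_natCast, map_natCast]
  exact CharP.cast_eq_zero κ l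

/-- the homomorphisms with a given kernel -/
lemma card_homs (p : HeightOneSpectrum (𝓞 ℚ)) {κ : Type} [Field κ] [Finite κ] {e : ℕ}
    (hκ : Nat.card κ = nv p ^ e) (v : HeightOneSpectrum (𝓞 K)) (hv : dn v = p) :
    Nat.card {φ : 𝓞 K →+* κ // RingHom.ker φ = v.asIdeal} = if fd v ∣ e then fd v else 0 := by
  obtain ⟨l, hl, hnv, hsp⟩ := exists_prime p
  rw [hnv] at hκ
  have : Fact l.Prime := ⟨hl⟩
  have cκ := charP_k hl hκ
  have hvmax : v.asIdeal.IsMaximal := v.isMaximal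
  letI : Field (𝓞 K ⧸ v.asIdeal) := Ideal.Quotient.field v.asIdeal
  have hcard : Nat.card (𝓞 K ⧸ v.asIdeal) = l ^ fd v := by
    have h1 := nv_eq_pow v
    rw [hv, hnv] at h1
    rw [← h1, nv, Ideal.absNorm_apply, Submodule.cardQuot_apply]
  have hfin : Finite (𝓞 K ⧸ v.asIdeal) := by
    refine Nat.finite_of_card_ne_zero ?_
    rw [hcard]
    exact pow_ne_zero _ hl.ne_zero
  have cF := charP_k hl hcard
  letI : Algebra (ZMod l) κ := ZMod.algebra κ l
  letI : Algebra (ZMod l) (𝓞 K ⧸ v.asIdeal) := ZMod.algebra _ l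
  have hr1 : Module.finrank (ZMod l) κ = e := by
    have h1 := Module.natCard_eq_pow_finrank (K := ZMod l) (V := κ)
    rw [hκ, Nat.card_zmod] at h1
    exact (Nat.pow_right_injective hl.two_le h1).symm
  have hr2 : Module.finrank (ZMod l) (𝓞 K ⧸ v.asIdeal) = fd v := by
    have h1 := Module.natCard_eq_pow_finrank (K := ZMod l) (V := 𝓞 K ⧸ v.asIdeal)
    rw [hcard, Nat.card_zmod] at h1
    exact (Nat.pow_right_injective hl.two_le h1).symm
  have E : {φ : 𝓞 K →+* κ // RingHom.ker φ = v.asIdeal} ≃ ((𝓞 K ⧸ v.asIdeal) →ₐ[ZMod l] κ) :=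
    { toFun := fun φ =>
        { Ideal.Quotient.lift v.asIdeal φ.1 (fun a ha => by
            rw [← φ.2] at ha; exact ha) with
          commutes' := fun r => by
            have := Subsingleton.elim ((Ideal.Quotient.lift v.asIdeal φ.1 (fun a ha => by
              rw [← φ.2] at ha; exact ha)).comp (algebraMap (ZMod l) (𝓞 K ⧸ v.asIdeal)))
              (algebraMap (ZMod l) κ)
            exact RingHom.congr_fun this r }
      invFun := fun ψ => ⟨ψ.toRingHom.comp (Ideal.Quotient.mk v.asIdeal), by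
        ext x
        rw [RingHom.mem_ker, RingHom.comp_apply]
        change ψ (Ideal.Quotient.mk v.asIdeal x) = 0 ↔ _
        rw [map_eq_zero_iff ψ ψ.toRingHom.injective, Ideal.Quotient.eq_zero_iff_mem]⟩
      left_inv := fun φ => by
        apply Subtype.ext
        ext x
        rfl
      right_inv := fun ψ => by
        apply AlgHom.ext
        intro x
        obtain ⟨y, rfl⟩ := Ideal.Quotient.mk_surjective x
        rfl }
  rw [Nat.card_congr E]
  split_ifs with hd
  · rw [← hr2, ← hr1] at hd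
    rw [FiniteField.natCard_algHom_of_finrank_dvd hd, hr2]
  · rw [Nat.card_eq_zero]
    left
    rw [← hr2, ← hr1] at hd
    rw [← not_nonempty_iff]
    exact fun h => hd (FiniteField.nonempty_algHom_iff_finrank_dvd.1 h)

/-- The sum over the homomorphisms from `𝓞 K` to a finite field, by the kernels -/
theorem sum_homs (p : HeightOneSpectrum (𝓞 ℚ)) (κ : Type) [Field κ] [Finite κ] (e : ℕ)
    (hκ : Nat.card κ = nv p ^ e) [Fintype (𝓞 K →+* κ)]
    [Fintype {v : HeightOneSpectrum (𝓞 K) // dn v = p}] (G : (𝓞 K →+* κ) → ℂ)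
    (g : HeightOneSpectrum (𝓞 K) → ℂ)
    (hG : ∀ v φ, dn v = p → RingHom.ker φ = v.asIdeal → G φ = g v) :
    ∑ φ, G φ = ∑ v : {v : HeightOneSpectrum (𝓞 K) // dn v = p},
      if fd v.1 ∣ e then (fd v.1 : ℂ) * g v.1 else 0 := by
  classical
  rw [← Finset.sum_fiberwise (s := Finset.univ)
    (g := fun φ : 𝓞 K →+* κ => (⟨kerP φ, dn_kerP p hκ φ⟩ :
      {v : HeightOneSpectrum (𝓞 K) // dn v = p}))]
  refine Finset.sum_congr rfl fun v _ => ?_
  have hiff : ∀ φ : 𝓞 K →+* κ, ((⟨kerP φ, dn_kerP p hκ φ⟩ :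
      {v : HeightOneSpectrum (𝓞 K) // dn v = p}) = v) ↔ RingHom.ker φ = v.1.asIdeal := by
    intro φ
    rw [Subtype.ext_iff, HeightOneSpectrum.ext_iff]
    rfl
  have h1 : ∑ φ ∈ Finset.univ.filter (fun φ : 𝓞 K →+* κ => (⟨kerP φ, dn_kerP p hκ φ⟩ :
      {v : HeightOneSpectrum (𝓞 K) // dn v = p}) = v), G φ =
      ∑ φ ∈ Finset.univ.filter (fun φ : 𝓞 K →+* κ => RingHom.ker φ = v.1.asIdeal), g v.1 := by
    rw [Finset.filter_congr (fun φ _ => hiff φ)]
    refine Finset.sum_congr rfl fun φ hφ => ?_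
    exact hG v.1 φ v.2 (Finset.mem_filter.1 hφ).2
  rw [h1, Finset.sum_const, nsmul_eq_mul]
  have h2 := card_homs p hκ v.1 v.2
  rw [Nat.card_eq_fintype_card, Fintype.card_subtype] at h2
  rw [h2]
  split_ifs with h
  · rfl
  · simp

end Pool.Agent.V8H35.CV
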